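import Pool.Agent.H365PP.Main

set_option autoImplicit false

namespace Pool.Agent.Results.MP_968049_co.LinearSaving

open Finset

/-- `P` is in general position: no three points on a line. -/
def GeneralPosition (P : Finset (ℝ × ℝ)) : Prop :=
  ∀ a ∈ P, ∀ b ∈ P, ∀ c ∈ P, a ≠ b → b ≠ c → a ≠ c → ¬ Collinear ℝ ({a, b, c} : Set (ℝ × ℝ))

/-- The segments `ab` and `uv` have a common point that is not an endpoint of both. -/
def Cross (a b u v : ℝ × ℝ) : Prop :=
  ∃ z, z ∈ segment ℝ a b ∧ z ∈ segment ℝ u v ∧ ¬ ((z = a ∨ z = b) ∧ (z = u ∨ z = v))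

/-- `c` is a crossing-free colouring of the edges of the complete geometric graph `K(P)` with `k` colours. -/
def CrossingFree (P : Finset (ℝ × ℝ)) (k : ℕ) (c : Sym2 (ℝ × ℝ) → ℕ) : Prop :=
  (∀ a ∈ P, ∀ b ∈ P, a ≠ b → c s(a, b) < k) ∧
  ∀ a ∈ P, ∀ b ∈ P, ∀ u ∈ P, ∀ v ∈ P, a ≠ b → u ≠ v → s(a, b) ≠ s(u, v) → Cross a b u v →
    c s(a, b) ≠ c s(u, v)

/-- `χ(P)`: the least number of colours in a crossing-free edge colouring of `K(P)`. -/
noncomputable def chi (P : Finset (ℝ × ℝ)) : ℕ := sInf {k | ∃ c, CrossingFree P k c}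

/-- `f(n)`: the maximum of `χ(P)` over the sets of `n` points in general position. -/
noncomputable def f (n : ℕ) : ℕ := sSup {k | ∃ P : Finset (ℝ × ℝ), P.card = n ∧ GeneralPosition P ∧ k = chi P}

theorem collinear_of_mem_open {a b v z : ℝ × ℝ} (hab : a ≠ b) (h1 : z ∈ openSegment ℝ a b)
    (h2 : z ∈ openSegment ℝ a v) : Collinear ℝ ({a, b, v} : Set (ℝ × ℝ)) := by
  rw [openSegment_eq_image_lineMap] at h1 h2
  obtain ⟨s, hs, rfl⟩ := h1
  obtain ⟨t, ht, h⟩ := h2
  rw [collinear_iff_of_mem (p₀ := a) (by simp)]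
  refine ⟨b - a, ?_⟩
  intro p hp
  simp only [Set.mem_insert_iff, Set.mem_singleton_iff] at hp
  rcases hp with rfl | rfl | rfl
  · exact ⟨0, by simp⟩
  · exact ⟨1, by simp⟩
  · refine ⟨s / t, ?_⟩
    have ht0 : t ≠ 0 := ne_of_gt ht.1
    simp only [AffineMap.lineMap_apply, vsub_eq_sub, vadd_eq_add] at h
    have h3 : t • (p - a) = s • (b - a) := by
      have := congrArg (fun x => x - a) h
      simpa using this
    have h4 : p - a = (s / t) • (b - a) := by
      rw [div_eq_inv_mul, mul_smul, ← h3, smul_smul, inv_mul_cancel₀ ht0, one_smul]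
    rw [← h4]
    simp

theorem collinear_of_mem_segment {u v z : ℝ × ℝ} (h : z ∈ segment ℝ u v) :
    Collinear ℝ ({z, u, v} : Set (ℝ × ℝ)) := by
  rw [segment_eq_image_lineMap] at h
  obtain ⟨t, ht, rfl⟩ := h
  rw [collinear_iff_of_mem (p₀ := u) (by simp)]
  refine ⟨v - u, ?_⟩
  intro p hp
  simp only [Set.mem_insert_iff, Set.mem_singleton_iff] at hp
  rcases hp with rfl | rfl | rfl
  · exact ⟨t, by simp [AffineMap.lineMap_apply]⟩
  · exact ⟨0, by simp⟩
  · exact ⟨1, by simp⟩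

/-- crossing in the sense of the problem gives four distinct endpoints and a common interior point -/
theorem cross_open {P : Finset (ℝ × ℝ)} (hG : GeneralPosition P) {a b u v : ℝ × ℝ} (ha : a ∈ P) (hb : b ∈ P)
    (hu : u ∈ P) (hv : v ∈ P) (hab : a ≠ b) (huv : u ≠ v) (hne : s(a, b) ≠ s(u, v)) (h : Cross a b u v) :
    a ≠ u ∧ a ≠ v ∧ b ≠ u ∧ b ≠ v ∧ (openSegment ℝ a b ∩ openSegment ℝ u v).Nonempty := by
  obtain ⟨z, h1, h2, h3⟩ := h
  rw [Ne, Sym2.eq_iff] at hne
  push Not at hne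
  by_cases hz1 : z = a ∨ z = b
  · exfalso
    have hz2 : ¬ (z = u ∨ z = v) := fun h => h3 ⟨hz1, h⟩
    push Not at hz2
    have hzP : z ∈ P := by rcases hz1 with rfl | rfl <;> assumption
    exact hG z hzP u hu v hv hz2.1 huv hz2.2 (collinear_of_mem_segment h2)
  by_cases hz2 : z = u ∨ z = v
  · exfalso
    push Not at hz1
    have hzP : z ∈ P := by rcases hz2 with rfl | rfl <;> assumption
    exact hG z hzP a ha b hb hz1.1 hab hz1.2 (collinear_of_mem_segment h1)
  push Not at hz1 hz2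
  have o1 : z ∈ openSegment ℝ a b := mem_openSegment_of_ne_left_right hz1.1.symm hz1.2.symm h1
  have o2 : z ∈ openSegment ℝ u v := mem_openSegment_of_ne_left_right hz2.1.symm hz2.2.symm h2
  have o1' : z ∈ openSegment ℝ b a := by rwa [openSegment_symm]
  have o2' : z ∈ openSegment ℝ v u := by rwa [openSegment_symm]
  refine ⟨?_, ?_, ?_, ?_, z, o1, o2⟩
  · intro h
    subst h
    have hbv : b ≠ v := hne.1 rfl
    exact hG a ha b hb v hv hab hbv huv (collinear_of_mem_open hab o1 o2)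
  · intro h
    subst h
    have hbv : b ≠ u := hne.2 rfl
    exact hG a ha b hb u hu hab hbv huv.symm (collinear_of_mem_open hab o1 o2')
  · intro h
    subst h
    have hav : a ≠ v := fun h => hne.2 h rfl
    exact hG b hb a ha v hv hab.symm hav huv (collinear_of_mem_open hab.symm o1' o2)
  · intro h
    subst h
    have hau : a ≠ u := fun h => hne.1 h rfl
    exact hG b hb a ha u hu hab.symm hau huv.symm (collinear_of_mem_open hab.symm o1' o2')

theorem exists_coloring {n : ℕ} {P : Finset (ℝ × ℝ)} (hP : P.card = n) (hG : GeneralPosition P) :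
    ∃ (k : ℕ) (c : Sym2 (ℝ × ℝ) → ℕ), (k : ℝ) ≤ (1 - 1 / 1400) * n ∧ CrossingFree P k c := by
  classical
  obtain ⟨e⟩ : Nonempty (P ≃ Fin n) := ⟨P.equivFinOfCardEq hP⟩
  obtain ⟨k, hk, c, h1, h2, h3⟩ := Pool.Agent.H365PP.main_explicit n (fun i => (e.symm i).1)
    (fun i j hij => e.symm.injective (Subtype.ext hij))
    (by
      intro i j l hij hjl hil
      refine hG _ (e.symm i).2 _ (e.symm j).2 _ (e.symm l).2 ?_ ?_ ?_
      · exact fun h => hij (e.symm.injective (Subtype.ext h))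
      · exact fun h => hjl (e.symm.injective (Subtype.ext h))
      · exact fun h => hil (e.symm.injective (Subtype.ext h)))
  refine ⟨k, Sym2.lift ⟨fun a b => if h : a ∈ P ∧ b ∈ P then c (e ⟨a, h.1⟩) (e ⟨b, h.2⟩) else 0, ?_⟩, hk,
    ?_, ?_⟩
  · intro a b
    by_cases h : a ∈ P ∧ b ∈ P
    · beta_reduce
      rw [dif_pos h, dif_pos h.symm, h1]
    · beta_reduce
      rw [dif_neg h, dif_neg (fun h' => h h'.symm)]
  · intro a ha b hb hab
    simp only [Sym2.lift_mk, dif_pos (And.intro ha hb)]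
    exact h2 _ _ (fun h => hab (by simpa using e.injective h))
  · intro a ha b hb u hu v hv hab huv hne hcr
    obtain ⟨g1, g2, g3, g4, g5⟩ := cross_open hG ha hb hu hv hab huv hne hcr
    simp only [Sym2.lift_mk, dif_pos (And.intro ha hb), dif_pos (And.intro hu hv)]
    have inj : ∀ x y (hx : x ∈ P) (hy : y ∈ P), x ≠ y → e ⟨x, hx⟩ ≠ e ⟨y, hy⟩ := by
      intro x y hx hy hxy h
      exact hxy (by simpa using e.injective h)
    apply h3 _ _ _ _ (inj _ _ _ _ hab) (inj _ _ _ _ g1) (inj _ _ _ _ g2) (inj _ _ _ _ g3)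
      (inj _ _ _ _ g4) (inj _ _ _ _ huv)
    simpa using g5

/-- The conjecture of the problem: `f(n) ≤ (1 - ε) n` for all `n`, with `ε = 1/1400`.  The first part says that
`K(P)` really has a crossing-free colouring with at most `(1 - 1/1400) n` colours, the second one is the bound
for the function `f`. -/
theorem result :
    (∀ (n : ℕ) (P : Finset (ℝ × ℝ)), P.card = n → GeneralPosition P →
      ∃ (k : ℕ) (c : Sym2 (ℝ × ℝ) → ℕ), (k : ℝ) ≤ (1 - 1 / 1400) * n ∧ CrossingFree P k c) ∧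
    ∀ n : ℕ, (f n : ℝ) ≤ (1 - 1 / 1400) * n := by
  refine ⟨fun n P hP hG => exists_coloring hP hG, ?_⟩
  intro n
  have h0 : (0 : ℝ) ≤ (1 - 1 / 1400) * n := by
    have : (0 : ℝ) ≤ n := Nat.cast_nonneg n
    linarith
  have hbd : ∀ k ∈ {k | ∃ P : Finset (ℝ × ℝ), P.card = n ∧ GeneralPosition P ∧ k = chi P},
      (k : ℝ) ≤ (1 - 1 / 1400) * n := by
    rintro k ⟨P, hP, hG, rfl⟩
    obtain ⟨k, c, hk, hc⟩ := exists_coloring hP hG
    have : chi P ≤ k := Nat.sInf_le ⟨c, hc⟩
    exact le_trans (by exact_mod_cast this) hk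
  unfold f
  rcases Set.eq_empty_or_nonempty {k | ∃ P : Finset (ℝ × ℝ), P.card = n ∧ GeneralPosition P ∧ k = chi P} with he | hne
  · rw [he]
    simpa using h0
  · have hfin : BddAbove {k | ∃ P : Finset (ℝ × ℝ), P.card = n ∧ GeneralPosition P ∧ k = chi P} := by
      refine ⟨n, ?_⟩
      intro k hk
      have h1 := hbd k hk
      have h2 : (k : ℝ) ≤ n := by
        have : (0 : ℝ) ≤ n := Nat.cast_nonneg n
        linarith
      exact_mod_cast h2
    exact hbd _ (Nat.sSup_mem hne hfin)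

end Pool.Agent.Results.MP_968049_co.LinearSaving
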